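import Mathlib

set_option autoImplicit false

/-!
A power series without constant term which is transcendental over the polynomial ring.
-/

namespace Pool.Agent.H482Z.Liouville

open Polynomial Nat

universe u

theorem natDegree_eval_le {k : Type u} [Field k] (P : Polynomial (Polynomial k)) :
    ∃ c : ℕ, ∀ q : Polynomial k, (P.eval q).natDegree ≤ c + P.natDegree * q.natDegree := by
  refine ⟨(Finset.range (P.natDegree + 1)).sup fun i => (P.coeff i).natDegree, fun q => ?_⟩
  rw [Polynomial.eval_eq_sum_range]
  refine Polynomial.natDegree_sum_le_of_forall_le _ _ fun i hi => ?_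
  refine Polynomial.natDegree_mul_le.trans (Nat.add_le_add ?_ ?_)
  · exact Finset.le_sup (f := fun i => (P.coeff i).natDegree) hi
  · refine Polynomial.natDegree_pow_le.trans (Nat.mul_le_mul_right _ ?_)
    exact Nat.lt_succ_iff.mp (Finset.mem_range.mp hi)

open Classical in
/-- the lacunary series -/
noncomputable def lac (k : Type u) [Field k] : PowerSeries k :=
  PowerSeries.mk fun n => if ∃ j : ℕ, n = (j + 1)! then 1 else 0

theorem lac_dvd (k : Type u) [Field k] (N : ℕ) :
    (PowerSeries.X : PowerSeries k) ^ (N + 1)! ∣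
      lac k - ((PowerSeries.trunc (N ! + 1) (lac k) : Polynomial k) : PowerSeries k) := by
  rw [PowerSeries.X_pow_dvd_iff]
  intro m hm
  rw [map_sub, Polynomial.coeff_coe, PowerSeries.coeff_trunc]
  split_ifs with h
  · simp
  · rw [sub_zero, lac, PowerSeries.coeff_mk, if_neg]
    rintro ⟨j, rfl⟩
    rcases le_or_gt (j + 1) N with hj | hj
    · exact h (Nat.lt_succ_of_le (Nat.factorial_le hj))
    · exact absurd (Nat.factorial_le hj) (not_le.mpr hm)

theorem lac_trunc_inj (k : Type u) [Field k] {m n : ℕ} (h : m < n) :
    PowerSeries.trunc ((m + 1)! + 1) (lac k) ≠ PowerSeries.trunc ((n + 1)! + 1) (lac k) := by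
  intro he
  have h1 := congrArg (fun p : Polynomial k => p.coeff (n + 1)!) he
  simp only [PowerSeries.coeff_trunc] at h1
  have h2 : (m + 1)! < (n + 1)! := (Nat.factorial_lt (Nat.succ_pos m)).mpr (by omega)
  rw [if_neg (by omega), if_pos (by omega), lac, PowerSeries.coeff_mk, if_pos ⟨n, rfl⟩] at h1
  exact zero_ne_one h1

theorem exists_transc (k : Type u) [Field k] :
    ∃ τ : PowerSeries k, PowerSeries.constantCoeff τ = 0 ∧
      ∀ P : Polynomial (Polynomial k), P ≠ 0 →
        P.eval₂ Polynomial.coeToPowerSeries.ringHom τ ≠ 0 := by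
  refine ⟨lac k, ?_, fun P hP h0 => hP ?_⟩
  · rw [← PowerSeries.coeff_zero_eq_constantCoeff_apply, lac, PowerSeries.coeff_mk, if_neg]
    rintro ⟨j, hj⟩
    exact (Nat.factorial_ne_zero _) hj.symm
  obtain ⟨c, hc⟩ := natDegree_eval_le P
  apply Polynomial.eq_zero_of_infinite_isRoot
  refine Set.infinite_of_injective_forall_mem
    (f := fun n : ℕ => PowerSeries.trunc ((n + (c + P.natDegree) + 1)! + 1) (lac k)) ?_ ?_
  · intro m n hmn
    rcases lt_trichotomy m n with h | h | h
    · exact absurd hmn (lac_trunc_inj k (by omega))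
    · exact h
    · exact absurd hmn.symm (lac_trunc_inj k (by omega))
  · intro n
    set N := n + (c + P.natDegree) + 1 with hN
    set q := PowerSeries.trunc (N ! + 1) (lac k) with hq
    show P.eval q = 0
    have h1 : (PowerSeries.X : PowerSeries k) ^ (N + 1)! ∣
        ((P.eval q : Polynomial k) : PowerSeries k) := by
      have h2 := Polynomial.sub_dvd_eval_sub (lac k) (q : PowerSeries k)
        (P.map Polynomial.coeToPowerSeries.ringHom)
      rw [Polynomial.eval_map, Polynomial.eval_map, h0, zero_sub, dvd_neg] at h2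
      have h3 : P.eval₂ Polynomial.coeToPowerSeries.ringHom (q : PowerSeries k) =
          ((P.eval q : Polynomial k) : PowerSeries k) :=
        Polynomial.eval₂_at_apply Polynomial.coeToPowerSeries.ringHom q
      rw [h3] at h2
      exact (lac_dvd k N).trans h2
    have hdeg : (P.eval q).natDegree < (N + 1)! := by
      have h4 : q.natDegree ≤ N ! := by
        have := PowerSeries.natDegree_trunc_lt (lac k) (N !)
        rw [← hq] at this
        omega
      have h5 := hc q
      have h6 : P.natDegree * q.natDegree ≤ P.natDegree * N ! := Nat.mul_le_mul_left _ h4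
      have h7 : 1 ≤ N ! := Nat.factorial_pos N
      rw [Nat.factorial_succ]
      have h8 : c + P.natDegree + 1 ≤ N + 1 := by omega
      calc (P.eval q).natDegree ≤ c + P.natDegree * N ! := by omega
        _ < (c + P.natDegree + 1) * N ! := by nlinarith
        _ ≤ (N + 1) * N ! := Nat.mul_le_mul_right _ h8
    rw [PowerSeries.X_pow_dvd_iff] at h1
    ext m
    rcases lt_or_ge m (N + 1)! with hm | hm
    · have := h1 m hm
      rwa [Polynomial.coeff_coe] at this
    · exact Polynomial.coeff_eq_zero_of_natDegree_lt (by omega)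

end Pool.Agent.H482Z.Liouville
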